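import Pool.Agent.helper93.TV.Spec1

/-!
# Row tv:DI
-/

namespace Pool.Agent.helper93.TV

open BigOperators Finset Matrix

section
variable {I V : Type} [Fintype I] [DecidableEq I] [Fintype V] [DecidableEq V]

omit [DecidableEq I] in
theorem DI_typeC (D : FD I V) (F : V → V → V → V → ℂ) (hF : D.UFS F) (κ κ' : V)
    (h : D.Cm F κ κ' ≠ 0) :
    D.s1 κ' = D.du (D.s1 κ) ∧ D.s2 κ' = D.t κ ∧ D.t κ' = D.s2 κ := by
  have h1 := (hF.uf.conn.supp _ _ _ _ h).1
  obtain ⟨-, h2, h3, -, -, h6⟩ := h1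
  refine ⟨?_, h2.symm, ?_⟩
  · rw [← h3, D.s1_eta]
  · rw [← h6, D.t_lam]

omit [DecidableEq I] in
theorem DI_typeR (D : FD I V) (F : V → V → V → V → ℂ) (hF : D.UFS F) (κ γ : V)
    (h : D.Rm F κ γ ≠ 0) :
    D.s1 γ = D.s2 κ ∧ D.s2 γ = D.du (D.t κ) ∧ D.t γ = D.du (D.s1 κ) := by
  have h1 := (hF.uf.conn.supp _ _ _ _ h).1
  obtain ⟨-, h2, -, h4, h5, -⟩ := h1
  refine ⟨h4.symm, ?_, ?_⟩
  · rw [← h5, D.s2_eta]
  · rw [h2, D.s2_eta]

end

theorem DI : DI_stmt := by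
  intro hCS hCR hRU hDU hBB hCC hCB hU1 hU2 hS1 I V _ _ _ _ D F hF
  have hdu := hDU hCC hU1 hS1 I V D F hF
  have hpos : ∀ a, 0 < D.dm F a := fun a => (hdu a).2.2
  have hdd : ∀ a, D.dm F (D.du a) = D.dm F a := fun a => (hdu a).2.1
  have CHC := hCS hBB hCC hCR hCB hRU hDU hU1 hU2 hS1 I V D F hF
  have hcr := hCR hU1 hU2 I V D F hF
  obtain ⟨hR1, hR2⟩ := hRU I V D F hF
  -- the scalars
  set lam : V → ℝ := fun κ => D.dm F (D.s2 κ) / (D.dm F (D.s1 κ) * D.dm F (D.t κ)) with hlam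
  have hlpos : ∀ κ, 0 < lam κ := fun κ => div_pos (hpos _) (mul_pos (hpos _) (hpos _))
  have hCHC : (D.Cm F)ᴴ * D.Cm F = Matrix.diagonal (fun κ => (lam κ : ℂ)) := by
    ext κ κ'
    rw [Matrix.mul_apply, Matrix.diagonal_apply]
    simp only [Matrix.conjTranspose_apply]
    exact CHC κ κ'
  have h1 : (Matrix.diagonal (fun κ => ((lam κ)⁻¹ : ℂ)) * (D.Cm F)ᴴ) * D.Cm F = 1 := by
    rw [Matrix.mul_assoc, hCHC, Matrix.diagonal_mul_diagonal]
    rw [← Matrix.diagonal_one]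
    refine congrArg _ (funext fun κ => ?_)
    have : (lam κ : ℂ) ≠ 0 := by exact_mod_cast (hlpos κ).ne'
    exact inv_mul_cancel₀ this
  have h2 : D.Cm F * (Matrix.diagonal (fun κ => ((lam κ)⁻¹ : ℂ)) * (D.Cm F)ᴴ) = 1 :=
    mul_eq_one_comm.mp h1
  have CCH : ∀ κ κ', ∑ α, D.Cm F κ α * star (D.Cm F κ' α) =
      if κ = κ' then ((D.dm F (D.t κ) / (D.dm F (D.s1 κ) * D.dm F (D.s2 κ)) : ℝ) : ℂ)
        else 0 := by
    intro κ κ'
    have h3 := congrFun (congrFun h2 κ) κ'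
    rw [Matrix.mul_apply, Matrix.one_apply] at h3
    simp only [Matrix.diagonal_mul, Matrix.conjTranspose_apply] at h3
    set ν : ℝ := D.dm F (D.t κ) / (D.dm F (D.s1 κ) * D.dm F (D.s2 κ)) with hν
    have hνpos : 0 < ν := div_pos (hpos _) (mul_pos (hpos _) (hpos _))
    have hνne : (ν : ℂ) ≠ 0 := by exact_mod_cast hνpos.ne'
    have h4 : ∀ α, D.Cm F κ α * ((lam α : ℂ)⁻¹ * star (D.Cm F κ' α)) =
        (ν : ℂ)⁻¹ * (D.Cm F κ α * star (D.Cm F κ' α)) := by
      intro α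
      by_cases h0 : D.Cm F κ α = 0
      · rw [h0]; ring
      · obtain ⟨e1, e2, e3⟩ := DI_typeC D F hF κ α h0
        have : lam α = ν := by
          rw [hlam, hν]
          simp only
          rw [e1, e2, e3, hdd]
        rw [this]; ring
    have h5 : ∑ α, D.Cm F κ α * star (D.Cm F κ' α) = (ν : ℂ) * if κ = κ' then 1 else 0 := by
      rw [← h3]
      rw [Finset.sum_congr rfl fun α _ => h4 α, ← Finset.mul_sum, ← mul_assoc,
        mul_inv_cancel₀ hνne, one_mul]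
    rw [h5]
    split_ifs <;> simp
  have hBC : ∀ α γ, D.Bm F α γ = star (∑ κ, D.Cm F α κ * D.Rm F κ γ) := by
    intro α γ
    rw [hcr α γ, star_star]
  have hB : D.Bm F = ((D.Cm F * D.Rm F).map star) := by
    ext α γ
    rw [Matrix.map_apply, Matrix.mul_apply]
    exact hBC α γ
  have hCCH : D.Cm F * (D.Cm F)ᴴ =
      Matrix.diagonal (fun κ => ((D.dm F (D.t κ) / (D.dm F (D.s1 κ) * D.dm F (D.s2 κ)) : ℝ) : ℂ)) := by
    ext κ κ'
    rw [Matrix.mul_apply, Matrix.diagonal_apply]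
    simp only [Matrix.conjTranspose_apply]
    exact CCH κ κ'
  refine ⟨hpos, hdd, ?_, CHC, CCH, ?_, ?_⟩
  · -- char
    intro a b
    have h3 := hF.uf.conn.row (D.eta (D.du a)) (D.lam b) (D.eta (D.du a)) (D.lam b)
      (by rw [D.t_eta, D.s1_lam]) (mem_univ _) (mem_univ _)
    rw [if_pos ⟨rfl, rfl⟩] at h3
    have h4 : ∀ e', (∑ l', F (D.eta (D.du a)) (D.lam b) e' l' *
        star (F (D.eta (D.du a)) (D.lam b) e' l')) =
        if D.s1 e' = a ∧ D.s2 e' = b then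
          ((D.dm F (D.t e') / (D.dm F a * D.dm F b) : ℝ) : ℂ) else 0 := by
      intro e'
      split_ifs with hc
      · obtain ⟨ha, hb⟩ := hc
        have h5 := CCH e' e'
        rw [if_pos rfl] at h5
        rw [← ha, ← hb]
        exact h5
      · refine Finset.sum_eq_zero fun l' _ => ?_
        by_cases h0 : F (D.eta (D.du a)) (D.lam b) e' l' = 0
        · rw [h0, zero_mul]
        · exfalso
          obtain ⟨-, -, -, h4, h5, -⟩ := (hF.uf.conn.supp _ _ _ _ h0).1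
          apply hc
          refine ⟨?_, ?_⟩
          · rw [← h4, D.s2_eta, D.du_du]
          · rw [← h5, D.s2_lam]
    rw [Finset.sum_congr rfl fun e' _ => h4 e', ← Finset.sum_filter] at h3
    have h5 : ((∑ α ∈ univ.filter (fun α => D.s1 α = a ∧ D.s2 α = b),
        D.dm F (D.t α) / (D.dm F a * D.dm F b) : ℝ) : ℂ) = 1 := by
      rw [← h3]; push_cast; rfl
    have h6 : (∑ α ∈ univ.filter (fun α => D.s1 α = a ∧ D.s2 α = b),
        D.dm F (D.t α) / (D.dm F a * D.dm F b) : ℝ) = 1 := by exact_mod_cast h5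
    rw [← Finset.sum_div, div_eq_one_iff_eq (mul_pos (hpos a) (hpos b)).ne'] at h6
    exact h6
  · -- BHB
    intro κ κ'
    have hm : (D.Rm F)ᴴ * ((D.Cm F)ᴴ * D.Cm F) * D.Rm F =
        Matrix.diagonal (fun κ => ((D.dm F (D.s1 κ) / (D.dm F (D.s2 κ) * D.dm F (D.t κ)) : ℝ) : ℂ)) := by
      have e1 : (D.Rm F)ᴴ * Matrix.diagonal (fun κ => (lam κ : ℂ)) =
          Matrix.diagonal (fun κ => ((D.dm F (D.s1 κ) / (D.dm F (D.s2 κ) * D.dm F (D.t κ)) : ℝ) : ℂ)) *
            (D.Rm F)ᴴ := by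
        ext κ β
        rw [Matrix.mul_diagonal, Matrix.diagonal_mul, Matrix.conjTranspose_apply]
        by_cases h0 : D.Rm F β κ = 0
        · rw [h0, star_zero, zero_mul, mul_zero]
        · obtain ⟨e1, e2, e3⟩ := DI_typeR D F hF β κ h0
          have : lam β = D.dm F (D.s1 κ) / (D.dm F (D.s2 κ) * D.dm F (D.t κ)) := by
            rw [hlam]
            simp only
            rw [e1, e2, e3, hdd, hdd, mul_comm (D.dm F (D.s1 β))]
          rw [this, mul_comm]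
      rw [hCHC, e1, Matrix.mul_assoc, hR2, Matrix.mul_one]
    have h3 := congrFun (congrFun hm κ) κ'
    have h4 : ∑ α, star (D.Bm F α κ) * D.Bm F α κ' =
        star (((D.Rm F)ᴴ * ((D.Cm F)ᴴ * D.Cm F) * D.Rm F) κ κ') := by
      have e2 : (D.Rm F)ᴴ * ((D.Cm F)ᴴ * D.Cm F) * D.Rm F =
          (D.Cm F * D.Rm F)ᴴ * (D.Cm F * D.Rm F) := by
        rw [Matrix.conjTranspose_mul]
        simp only [Matrix.mul_assoc]
      rw [e2, Matrix.mul_apply, star_sum]
      refine Finset.sum_congr rfl fun α _ => ?_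
      rw [hB, Matrix.map_apply, Matrix.map_apply, Matrix.conjTranspose_apply, star_mul', star_star]
    rw [h4, h3, Matrix.diagonal_apply]
    split_ifs
    · exact Complex.conj_ofReal _
    · exact star_zero _
  · -- BBH
    intro κ κ'
    have hm : D.Cm F * (D.Rm F * (D.Rm F)ᴴ) * (D.Cm F)ᴴ =
        Matrix.diagonal (fun κ => ((D.dm F (D.t κ) / (D.dm F (D.s1 κ) * D.dm F (D.s2 κ)) : ℝ) : ℂ)) := by
      rw [hR1, Matrix.mul_one, hCCH]
    have h3 := congrFun (congrFun hm κ) κ'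
    have h4 : ∑ α, D.Bm F κ α * star (D.Bm F κ' α) =
        star ((D.Cm F * (D.Rm F * (D.Rm F)ᴴ) * (D.Cm F)ᴴ) κ κ') := by
      have e2 : D.Cm F * (D.Rm F * (D.Rm F)ᴴ) * (D.Cm F)ᴴ =
          (D.Cm F * D.Rm F) * (D.Cm F * D.Rm F)ᴴ := by
        rw [Matrix.conjTranspose_mul]
        simp only [Matrix.mul_assoc]
      rw [e2, Matrix.mul_apply, star_sum]
      refine Finset.sum_congr rfl fun α _ => ?_
      rw [hB, Matrix.map_apply, Matrix.map_apply, Matrix.conjTranspose_apply, star_mul', star_star]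
    rw [h4, h3, Matrix.diagonal_apply]
    split_ifs
    · exact Complex.conj_ofReal _
    · exact star_zero _

end Pool.Agent.helper93.TV
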